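import Pool.Agent.Helper62.VT.RoabpDef

/-!
Closure properties of read-once oblivious branching programs.
-/

set_option autoImplicit false

namespace Pool.Agent.Helper21.VT

open Pool.Agent.Helper62.VT

/-- Product of matrices indexed by any finite type. -/
noncomputable def mp {n : ℕ} {ι : Type} [Fintype ι] [DecidableEq ι]
    (A : Fin n → Matrix ι ι (Polynomial ℂ)) : Matrix ι ι (MvPolynomial (Fin n) ℂ) :=
  (List.ofFn fun l => (A l).map
    fun p => Polynomial.aeval (MvPolynomial.X l : MvPolynomial (Fin n) ℂ) p).prod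

/-- Read-once oblivious branching programs whose states form the type `ι`. -/
def RO (ι : Type) [Fintype ι] [DecidableEq ι] {n : ℕ} (f : MvPolynomial (Fin n) ℂ) : Prop :=
  ∃ (A : Fin n → Matrix ι ι (Polynomial ℂ)) (u v : ι → ℂ),
    f = ∑ i, ∑ j, MvPolynomial.C (u i) * mp A i j * MvPolynomial.C (v j)

theorem isRO_iff {κ n : ℕ} {f : MvPolynomial (Fin n) ℂ} : IsRO κ f ↔ RO (Fin κ) f := Iff.rfl

theorem mp_reindex {n : ℕ} {ι κ : Type} [Fintype ι] [DecidableEq ι] [Fintype κ] [DecidableEq κ]
    (e : ι ≃ κ) (A : Fin n → Matrix ι ι (Polynomial ℂ)) :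
    mp (fun l => (A l).submatrix e.symm e.symm) = (mp A).submatrix e.symm e.symm := by
  have key : ∀ (m : ℕ) (B : Fin m → Matrix ι ι (MvPolynomial (Fin n) ℂ)),
      (List.ofFn fun l => (B l).submatrix e.symm e.symm).prod =
        (List.ofFn B).prod.submatrix e.symm e.symm := by
    intro m
    induction m with
    | zero => intro B; simp
    | succ m ih =>
      intro B
      rw [List.ofFn_succ, List.prod_cons, List.ofFn_succ, List.prod_cons, ih,
        Matrix.submatrix_mul_equiv]
  rw [mp, mp, ← key]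
  rfl

theorem RO.reindex {n : ℕ} {ι κ : Type} [Fintype ι] [DecidableEq ι] [Fintype κ] [DecidableEq κ]
    (e : ι ≃ κ) {f : MvPolynomial (Fin n) ℂ} (h : RO ι f) : RO κ f := by
  obtain ⟨A, u, v, rfl⟩ := h
  refine ⟨fun l => (A l).submatrix e.symm e.symm, fun i => u (e.symm i), fun j => v (e.symm j), ?_⟩
  rw [mp_reindex, ← e.sum_comp]
  refine Finset.sum_congr rfl fun i _ => ?_
  rw [← e.sum_comp]
  refine Finset.sum_congr rfl fun j _ => ?_
  simp

theorem mp_kronecker {n : ℕ} {ι κ : Type} [Fintype ι] [DecidableEq ι] [Fintype κ] [DecidableEq κ]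
    (A : Fin n → Matrix ι ι (Polynomial ℂ)) (B : Fin n → Matrix κ κ (Polynomial ℂ)) :
    mp (fun l => Matrix.kronecker (A l) (B l)) = Matrix.kronecker (mp A) (mp B) := by
  have key : ∀ (m : ℕ) (P : Fin m → Matrix ι ι (MvPolynomial (Fin n) ℂ))
      (Q : Fin m → Matrix κ κ (MvPolynomial (Fin n) ℂ)),
      (List.ofFn fun l => Matrix.kronecker (P l) (Q l)).prod =
        Matrix.kronecker (List.ofFn P).prod (List.ofFn Q).prod := by
    intro m
    induction m with
    | zero => intro P Q; simp [Matrix.kronecker]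
    | succ m ih =>
      intro P Q
      rw [List.ofFn_succ, List.prod_cons, List.ofFn_succ, List.prod_cons, List.ofFn_succ,
        List.prod_cons, ih]
      exact (Matrix.mul_kronecker_mul _ _ _ _).symm
  rw [mp, mp, mp, ← key]
  congr 2
  funext l
  ext ⟨i, i'⟩ ⟨j, j'⟩
  simp [Matrix.kronecker]

theorem RO.mul {n : ℕ} {ι κ : Type} [Fintype ι] [DecidableEq ι] [Fintype κ] [DecidableEq κ]
    {f g : MvPolynomial (Fin n) ℂ} (hf : RO ι f) (hg : RO κ g) : RO (ι × κ) (f * g) := by
  obtain ⟨A, u, v, rfl⟩ := hf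
  obtain ⟨B, u', v', rfl⟩ := hg
  refine ⟨fun l => Matrix.kronecker (A l) (B l), fun i => u i.1 * u' i.2,
    fun j => v j.1 * v' j.2, ?_⟩
  rw [mp_kronecker, Fintype.sum_prod_type, Finset.sum_mul]
  refine Finset.sum_congr rfl fun i _ => ?_
  rw [Finset.mul_sum]
  refine Finset.sum_congr rfl fun i' _ => ?_
  rw [Fintype.sum_prod_type, Finset.sum_mul]
  refine Finset.sum_congr rfl fun j _ => ?_
  rw [Finset.mul_sum]
  refine Finset.sum_congr rfl fun j' _ => ?_
  simp [Matrix.kronecker]
  ring

theorem mp_blocks {n : ℕ} {ι κ : Type} [Fintype ι] [DecidableEq ι] [Fintype κ] [DecidableEq κ]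
    (A : Fin n → Matrix ι ι (Polynomial ℂ)) (B : Fin n → Matrix κ κ (Polynomial ℂ)) :
    mp (fun l => Matrix.fromBlocks (A l) 0 0 (B l)) = Matrix.fromBlocks (mp A) 0 0 (mp B) := by
  have key : ∀ (m : ℕ) (P : Fin m → Matrix ι ι (MvPolynomial (Fin n) ℂ))
      (Q : Fin m → Matrix κ κ (MvPolynomial (Fin n) ℂ)),
      (List.ofFn fun l => Matrix.fromBlocks (P l) 0 0 (Q l)).prod =
        Matrix.fromBlocks (List.ofFn P).prod 0 0 (List.ofFn Q).prod := by
    intro m
    induction m with
    | zero => intro P Q; simp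
    | succ m ih =>
      intro P Q
      rw [List.ofFn_succ, List.prod_cons, List.ofFn_succ, List.prod_cons, List.ofFn_succ,
        List.prod_cons, ih, Matrix.fromBlocks_multiply]
      simp
  rw [mp, mp, mp, ← key]
  congr 2
  funext l
  rw [Matrix.fromBlocks_map]
  congr 1
  · ext; simp
  · ext; simp

theorem RO.add {n : ℕ} {ι κ : Type} [Fintype ι] [DecidableEq ι] [Fintype κ] [DecidableEq κ]
    {f g : MvPolynomial (Fin n) ℂ} (hf : RO ι f) (hg : RO κ g) : RO (ι ⊕ κ) (f + g) := by
  obtain ⟨A, u, v, rfl⟩ := hf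
  obtain ⟨B, u', v', rfl⟩ := hg
  refine ⟨fun l => Matrix.fromBlocks (A l) 0 0 (B l), Sum.elim u u', Sum.elim v v', ?_⟩
  rw [mp_blocks, Fintype.sum_sum_type]
  simp only [Fintype.sum_sum_type]
  simp

theorem RO.const_mul {n : ℕ} {ι : Type} [Fintype ι] [DecidableEq ι]
    {f : MvPolynomial (Fin n) ℂ} (c : ℂ) (hf : RO ι f) : RO ι (MvPolynomial.C c * f) := by
  obtain ⟨A, u, v, rfl⟩ := hf
  refine ⟨A, fun i => c * u i, v, ?_⟩
  rw [Finset.mul_sum]
  refine Finset.sum_congr rfl fun i _ => ?_
  rw [Finset.mul_sum]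
  refine Finset.sum_congr rfl fun j _ => ?_
  rw [MvPolynomial.C_mul]
  ring

theorem RO.zero {n : ℕ} {ι : Type} [Fintype ι] [DecidableEq ι] :
    RO ι (0 : MvPolynomial (Fin n) ℂ) := by
  refine ⟨0, 0, 0, ?_⟩
  simp

theorem RO.one {n : ℕ} : RO (Fin 1) (1 : MvPolynomial (Fin n) ℂ) := by
  refine ⟨fun _ => 1, fun _ => 1, fun _ => 1, ?_⟩
  have h : mp (fun _ : Fin n => (1 : Matrix (Fin 1) (Fin 1) (Polynomial ℂ))) = 1 := by
    rw [mp]
    apply List.prod_eq_one
    intro x hx
    rw [List.mem_ofFn] at hx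
    obtain ⟨l, rfl⟩ := hx
    ext i j
    fin_cases i
    fin_cases j
    simp
  rw [h]
  simp

/-- Entrywise application of a derivation. -/
theorem deriv_prod {n : ℕ} {ι : Type} [Fintype ι] [DecidableEq ι]
    (D : Derivation ℂ (MvPolynomial (Fin n) ℂ) (MvPolynomial (Fin n) ℂ)) :
    ∀ (m : ℕ) (B : Fin m → Matrix ι ι (MvPolynomial (Fin n) ℂ)),
      (∀ k, (B k).map D = 0) → (List.ofFn B).prod.map D = 0 := by
  intro m
  induction m with
  | zero =>
    intro B _
    ext i j
    simp only [List.ofFn_zero, List.prod_nil, Matrix.map_apply, Matrix.zero_apply,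
      Matrix.one_apply]
    split_ifs <;> simp
  | succ m ih =>
    intro B hB
    have h1 := ih (fun k => B k.succ) (fun k => hB _)
    have h0 := hB 0
    rw [List.ofFn_succ, List.prod_cons]
    refine Matrix.ext fun a b => ?_
    have e1 : ∀ i j, D ((List.ofFn fun k => B k.succ).prod i j) = 0 := fun i j =>
      congrFun (congrFun h1 i) j
    have e0 : ∀ i j, D (B 0 i j) = 0 := fun i j => congrFun (congrFun h0 i) j
    simp only [Matrix.map_apply, Matrix.mul_apply, map_sum, Derivation.leibniz, e1, e0,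
      Matrix.zero_apply, smul_zero, add_zero, Finset.sum_const_zero]

theorem deriv_prod' {n : ℕ} {ι : Type} [Fintype ι] [DecidableEq ι]
    (D : Derivation ℂ (MvPolynomial (Fin n) ℂ) (MvPolynomial (Fin n) ℂ)) :
    ∀ (m : ℕ) (B : Fin m → Matrix ι ι (MvPolynomial (Fin n) ℂ)) (i : Fin m),
      (∀ k, k ≠ i → (B k).map D = 0) →
      (List.ofFn B).prod.map D = (List.ofFn (Function.update B i ((B i).map D))).prod := by
  intro m
  induction m with
  | zero => intro B i; exact i.elim0
  | succ m ih =>
    intro B i hB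
    rw [List.ofFn_succ, List.prod_cons, List.ofFn_succ, List.prod_cons]
    rcases Fin.eq_zero_or_eq_succ i with rfl | ⟨i', rfl⟩
    · have h1 := deriv_prod D m (fun k => B k.succ) (fun k => hB _ (Fin.succ_ne_zero k))
      have e1 : ∀ i j, D ((List.ofFn fun k => B k.succ).prod i j) = 0 := fun i j =>
        congrFun (congrFun h1 i) j
      have e2 : (fun k : Fin m => Function.update B 0 ((B 0).map D) k.succ) =
          fun k => B k.succ := by
        funext k
        rw [Function.update_of_ne (Fin.succ_ne_zero k)]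
      rw [e2, Function.update_self]
      refine Matrix.ext fun a b => ?_
      simp only [Matrix.map_apply, Matrix.mul_apply, map_sum, Derivation.leibniz, e1,
        smul_zero, zero_add, smul_eq_mul, mul_zero]
      refine Finset.sum_congr rfl fun k _ => ?_
      ring
    · have h0 := hB 0 (Fin.succ_ne_zero i').symm
      have e0 : ∀ i j, D (B 0 i j) = 0 := fun i j => congrFun (congrFun h0 i) j
      have h1 := ih (fun k => B k.succ) i' (fun k hk => hB _ (fun h => hk (Fin.succ_injective _ h)))
      have e1 : ∀ i j, D ((List.ofFn fun k => B k.succ).prod i j) =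
          (List.ofFn (Function.update (fun k => B k.succ) i' ((B i'.succ).map D))).prod i j :=
        fun i j => congrFun (congrFun h1 i) j
      have e2 : (fun k : Fin m => Function.update B i'.succ ((B i'.succ).map D) k.succ) =
          Function.update (fun k => B k.succ) i' ((B i'.succ).map D) := by
        funext k
        by_cases hk : k = i'
        · subst hk
          rw [Function.update_self, Function.update_self]
        · rw [Function.update_of_ne hk, Function.update_of_ne
            (fun h => hk (Fin.succ_injective _ h))]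
      rw [e2, Function.update_of_ne (Fin.succ_ne_zero i').symm]
      refine Matrix.ext fun a b => ?_
      simp only [Matrix.map_apply, Matrix.mul_apply, map_sum, Derivation.leibniz, e0,
        smul_zero, add_zero, smul_eq_mul, e1, mul_zero]

theorem RO.pderiv {n : ℕ} {ι : Type} [Fintype ι] [DecidableEq ι]
    {f : MvPolynomial (Fin n) ℂ} (i : Fin n) (hf : RO ι f) : RO ι (MvPolynomial.pderiv i f) := by
  obtain ⟨A, u, v, rfl⟩ := hf
  refine ⟨Function.update A i ((A i).map Polynomial.derivative), u, v, ?_⟩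
  have hd : ∀ (l : Fin n) (p : Polynomial ℂ), MvPolynomial.pderiv i
      (Polynomial.aeval (MvPolynomial.X l : MvPolynomial (Fin n) ℂ) p) =
      if l = i then Polynomial.aeval (MvPolynomial.X l : MvPolynomial (Fin n) ℂ)
        (Polynomial.derivative p) else 0 := by
    intro l p
    induction p using Polynomial.induction_on' with
    | add p q hp hq =>
      rw [map_add, map_add, hp, hq, Polynomial.derivative_add, map_add]
      split_ifs <;> simp
    | monomial m c =>
      rw [Polynomial.aeval_monomial, Derivation.leibniz, Derivation.leibniz_pow,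
        Polynomial.derivative_monomial, Polynomial.aeval_monomial, MvPolynomial.pderiv_X]
      split_ifs with h
      · subst h
        simp
        ring
      · simp [Pi.single_apply, Ne.symm h, h]
        
  have h1 := deriv_prod' (MvPolynomial.pderiv i) n (fun l => (A l).map
    fun p => Polynomial.aeval (MvPolynomial.X l : MvPolynomial (Fin n) ℂ) p) i (by
      intro k hk
      refine Matrix.ext fun a b => ?_
      simp only [Matrix.map_apply, Matrix.zero_apply]
      rw [hd, if_neg hk])
  have h2 : mp (Function.update A i ((A i).map Polynomial.derivative)) =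
      (mp A).map (MvPolynomial.pderiv i) := by
    rw [mp, mp, h1]
    congr 2
    funext l
    by_cases hl : l = i
    · subst hl
      rw [Function.update_self, Function.update_self]
      refine Matrix.ext fun a b => ?_
      simp only [Matrix.map_apply]
      rw [hd, if_pos rfl]
    · rw [Function.update_of_ne hl, Function.update_of_ne hl]
  rw [h2, map_sum]
  refine Finset.sum_congr rfl fun a _ => ?_
  rw [map_sum]
  refine Finset.sum_congr rfl fun b _ => ?_
  simp only [Matrix.map_apply, Derivation.leibniz, MvPolynomial.pderiv_C, smul_zero,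
    smul_eq_mul, zero_add, mul_zero, add_zero]
  ring

end Pool.Agent.Helper21.VT

namespace Pool.Agent.Helper62.VT

open Pool.Agent.Helper21.VT

theorem IsRO.mul {κ l n : ℕ} {f g : MvPolynomial (Fin n) ℂ} (hf : IsRO κ f) (hg : IsRO l g) :
    IsRO (κ * l) (f * g) :=
  (RO.mul (isRO_iff.mp hf) (isRO_iff.mp hg)).reindex finProdFinEquiv

theorem IsRO.add {κ l n : ℕ} {f g : MvPolynomial (Fin n) ℂ} (hf : IsRO κ f) (hg : IsRO l g) :
    IsRO (κ + l) (f + g) :=
  (RO.add (isRO_iff.mp hf) (isRO_iff.mp hg)).reindex finSumFinEquiv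

theorem IsRO.const_mul {κ n : ℕ} {f : MvPolynomial (Fin n) ℂ} (c : ℂ) (hf : IsRO κ f) :
    IsRO κ (MvPolynomial.C c * f) := RO.const_mul c hf

theorem IsRO.zero {κ n : ℕ} : IsRO κ (0 : MvPolynomial (Fin n) ℂ) := RO.zero

theorem IsRO.one {n : ℕ} : IsRO 1 (1 : MvPolynomial (Fin n) ℂ) := RO.one

theorem IsRO.mono {κ l n : ℕ} {f : MvPolynomial (Fin n) ℂ} (h : κ ≤ l) (hf : IsRO κ f) :
    IsRO l f := by
  have h1 := hf.add (IsRO.zero (κ := l - κ))
  rw [add_zero, Nat.add_sub_cancel' h] at h1
  exact h1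

theorem IsRO.pderiv {κ n : ℕ} {f : MvPolynomial (Fin n) ℂ} (i : Fin n) (hf : IsRO κ f) :
    IsRO κ (MvPolynomial.pderiv i f) := RO.pderiv i hf

theorem IsRO.sum {κ n : ℕ} {T : Type} (s : Finset T) (f : T → MvPolynomial (Fin n) ℂ)
    (hf : ∀ x ∈ s, IsRO κ (f x)) : IsRO (s.card * κ) (∑ x ∈ s, f x) := by
  classical
  induction s using Finset.induction_on with
  | empty => simpa using IsRO.zero
  | insert a s ha ih =>
    rw [Finset.sum_insert ha, Finset.card_insert_of_notMem ha, Nat.add_mul, Nat.one_mul,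
      Nat.add_comm]
    exact (hf a (Finset.mem_insert_self _ _)).add
      (ih fun x hx => hf x (Finset.mem_insert_of_mem hx))

theorem IsRO.prod {κ n : ℕ} {T : Type} (s : Finset T) (f : T → MvPolynomial (Fin n) ℂ)
    (hf : ∀ x ∈ s, IsRO κ (f x)) : IsRO (κ ^ s.card) (∏ x ∈ s, f x) := by
  classical
  induction s using Finset.induction_on with
  | empty => simpa using IsRO.one
  | insert a s ha ih =>
    rw [Finset.prod_insert ha, Finset.card_insert_of_notMem ha, pow_succ, Nat.mul_comm]
    exact (hf a (Finset.mem_insert_self _ _)).mul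
      (ih fun x hx => hf x (Finset.mem_insert_of_mem hx))

theorem IsRO.det {κ t n : ℕ} (M : Matrix (Fin t) (Fin t) (MvPolynomial (Fin n) ℂ))
    (h : ∀ i j, IsRO κ (M i j)) : IsRO (t.factorial * κ ^ t) M.det := by
  rw [Matrix.det_apply]
  have h1 := IsRO.sum (κ := κ ^ t) (Finset.univ : Finset (Equiv.Perm (Fin t)))
    (fun σ => Equiv.Perm.sign σ • ∏ i, M (σ i) i) (fun σ _ => by
      have h2 := IsRO.prod (κ := κ) (Finset.univ : Finset (Fin t)) (fun i => M (σ i) i)
        (fun i _ => h _ _)
      rw [Finset.card_univ, Fintype.card_fin] at h2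
      have h3 := h2.const_mul (((Equiv.Perm.sign σ : ℤ) : ℂ))
      have h4 : MvPolynomial.C (((Equiv.Perm.sign σ : ℤ) : ℂ)) * ∏ i, M (σ i) i =
          Equiv.Perm.sign σ • ∏ i, M (σ i) i := by
        rw [Units.smul_def, zsmul_eq_mul, map_intCast]
      rwa [h4] at h3)
  rwa [Finset.card_univ, Fintype.card_perm, Fintype.card_fin] at h1

end Pool.Agent.Helper62.VT
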